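import Mathlib.Algebra.Polynomial.Derivative
import Mathlib.Analysis.SpecialFunctions.Pow.Deriv
import Mathlib.Data.Set.Card
import Mathlib.Tactic

/-!
The graph of the quartic `X ^ 4 + 2 X ^ 2` has exactly one curvature-critical point, and hence at
most one point of extreme curvature.
-/

namespace Pool.Agent.Results.MP_4bcb19_an.OneCriticalPoint

open Polynomial

/-- The signed curvature of the graph of `p` at the point with abscissa `x`. -/
noncomputable def curvature (p : ℝ[X]) (x : ℝ) : ℝ :=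
  (derivative (derivative p)).eval x / (1 + (derivative p).eval x ^ 2) ^ (3 / 2 : ℝ)

theorem key (x : ℝ) (h : (24 * x) * (1 + (4 * x ^ 3 + 4 * x) ^ 2) -
    3 * (4 * x ^ 3 + 4 * x) * (12 * x ^ 2 + 4) ^ 2 = 0) : x = 0 := by
  have h' : x * (24 - (4 * x ^ 2 + 4) * (336 * x ^ 4 + 192 * x ^ 2 + 48)) = 0 := by
    linear_combination h
  rcases mul_eq_zero.1 h' with h' | h'
  · exact h'
  · exfalso
    nlinarith [sq_nonneg x, sq_nonneg (x ^ 2), sq_nonneg (x ^ 3)]

theorem result :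
    ∃ p : ℝ[X], p.natDegree = 4 ∧ {x : ℝ | deriv (curvature p) x = 0} = {0} ∧
      {x : ℝ | IsLocalExtr (curvature p) x} ⊆ {0} := by
  refine ⟨X ^ 4 + 2 * X ^ 2, by compute_degree!, ?_⟩
  have h1 : ∀ x : ℝ, (derivative (X ^ 4 + 2 * X ^ 2 : ℝ[X])).eval x = 4 * x ^ 3 + 4 * x := by
    intro x
    simp
    ring
  have h2 : ∀ x : ℝ, (derivative (derivative (X ^ 4 + 2 * X ^ 2 : ℝ[X]))).eval x =
      12 * x ^ 2 + 4 := by
    intro x
    simp
    ring
  have hc : curvature (X ^ 4 + 2 * X ^ 2) = fun x : ℝ =>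
      (12 * x ^ 2 + 4) / (1 + (4 * x ^ 3 + 4 * x) ^ 2) ^ (3 / 2 : ℝ) := by
    funext x
    rw [curvature, h1, h2]
  have hd : ∀ x : ℝ, HasDerivAt (curvature (X ^ 4 + 2 * X ^ 2))
      (((24 * x) * (1 + (4 * x ^ 3 + 4 * x) ^ 2) -
        3 * (4 * x ^ 3 + 4 * x) * (12 * x ^ 2 + 4) ^ 2) /
        (1 + (4 * x ^ 3 + 4 * x) ^ 2) ^ (5 / 2 : ℝ)) x := by
    intro x
    rw [hc]
    have hpos : 0 < 1 + (4 * x ^ 3 + 4 * x) ^ 2 := by positivity
    have e1 : HasDerivAt (fun x : ℝ => 12 * x ^ 2 + 4) (24 * x) x := by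
      have := ((hasDerivAt_pow 2 x).const_mul 12).add_const 4
      refine this.congr_deriv ?_
      norm_num
      ring
    have e2 : HasDerivAt (fun x : ℝ => 1 + (4 * x ^ 3 + 4 * x) ^ 2)
        (2 * (4 * x ^ 3 + 4 * x) * (12 * x ^ 2 + 4)) x := by
      have a := (((hasDerivAt_pow 3 x).const_mul 4).add ((hasDerivAt_id x).const_mul 4)).pow 2
      have := a.const_add 1
      refine this.congr_deriv ?_
      simp only [Pi.add_apply, id_eq, Nat.cast_ofNat]
      ring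
    have e3 := e2.rpow_const (p := 3 / 2) (Or.inl hpos.ne')
    have hne : (1 + (4 * x ^ 3 + 4 * x) ^ 2) ^ (3 / 2 : ℝ) ≠ 0 := by positivity
    have e4 := e1.div e3 hne
    refine e4.congr_deriv ?_
    set w := 1 + (4 * x ^ 3 + 4 * x) ^ 2 with hw
    have p1 : w ^ (3 / 2 - 1 : ℝ) = w ^ (1 / 2 : ℝ) := by norm_num
    have p3 : w ^ (3 / 2 : ℝ) = w * w ^ (1 / 2 : ℝ) := by
      rw [← Real.rpow_one_add' hpos.le (by norm_num)]
      norm_num
    have p5 : w ^ (5 / 2 : ℝ) = w * w * w ^ (1 / 2 : ℝ) := by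
      rw [mul_assoc, ← p3, ← Real.rpow_one_add' hpos.le (by norm_num)]
      norm_num
    rw [p1, p3, p5]
    have hs : w ^ (1 / 2 : ℝ) ≠ 0 := by positivity
    field_simp
  have hcrit : ∀ x : ℝ, deriv (curvature (X ^ 4 + 2 * X ^ 2)) x = 0 → x = 0 := by
    intro x hx
    rw [(hd x).deriv] at hx
    have hpos : 0 < 1 + (4 * x ^ 3 + 4 * x) ^ 2 := by positivity
    have hne : (1 + (4 * x ^ 3 + 4 * x) ^ 2) ^ (5 / 2 : ℝ) ≠ 0 := by positivity
    rw [div_eq_zero_iff] at hx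
    rcases hx with hx | hx
    · exact key x hx
    · exact absurd hx hne
  constructor
  · ext x
    simp only [Set.mem_ofPred_eq, Set.mem_singleton_iff]
    refine ⟨hcrit x, ?_⟩
    rintro rfl
    rw [(hd 0).deriv]
    simp
  · intro x hx
    exact hcrit x (IsLocalExtr.deriv_eq_zero hx)

end Pool.Agent.Results.MP_4bcb19_an.OneCriticalPoint
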